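import Mathlib

/-!
# RI-COV: covering radius of a lattice and the number of lattice points in a ball

`covering`: a lattice `L` with minimum `≥ λ` satisfies: every point has distance
`< λ · covolume / μ (ball 0 (λ/2))` from `L`.  (On the segment from `0` to `y` the function `dist(·, L)` takes the values
`0, λ, 2λ, ..`; the balls of radius `λ/2` about these points and all their translates by `L` are disjoint.)

`count_bounds`: number of lattice points in a ball of radius `T` between
`μ (ball (T - ρ)) / covolume` and `μ (ball (T + ρ)) / covolume`, `ρ` = covering radius.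
-/

set_option autoImplicit false

open MeasureTheory Metric Set Module
open scoped ENNReal

noncomputable section

namespace H8.RI

variable {E : Type*} [NormedAddCommGroup E] [NormedSpace ℝ E]

private theorem ex_val (L : Submodule ℤ E) (y : E) (c : ℝ) (h0 : 0 ≤ c)
    (h1 : c ≤ infDist y (L : Set E)) : ∃ z : E, infDist z (L : Set E) = c := by
  have hcont : Continuous (fun t : ℝ => infDist (t • y) (L : Set E)) :=
    (continuous_infDist_pt _).comp (continuous_id.smul continuous_const)
  have h00 : infDist ((0 : ℝ) • y) (L : Set E) = 0 := by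
    rw [zero_smul]; exact infDist_zero_of_mem L.zero_mem
  have h11 : infDist ((1 : ℝ) • y) (L : Set E) = infDist y (L : Set E) := by rw [one_smul]
  have := intermediate_value_Icc (f := fun t : ℝ => infDist (t • y) (L : Set E)) zero_le_one
    hcont.continuousOn
  obtain ⟨t, -, ht⟩ := this (show c ∈ Icc _ _ by
    rw [h00, h11]; exact ⟨h0, h1⟩)
  exact ⟨t • y, ht⟩

omit [NormedSpace ℝ E] in
private theorem infDist_add_mem (L : Submodule ℤ E) (x g : E) (hg : g ∈ L) :
    infDist (x + g) (L : Set E) = infDist x (L : Set E) := by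
  have key : ∀ (x g : E), g ∈ L → infDist (x + g) (L : Set E) ≤ infDist x (L : Set E) := by
    intro x g hg
    refine le_of_forall_pos_lt_add fun ε hε => ?_
    have hne : (L : Set E).Nonempty := ⟨0, L.zero_mem⟩
    obtain ⟨z, hz, hz2⟩ := (infDist_lt_iff hne).1 (lt_add_of_pos_right (infDist x (L : Set E)) hε)
    refine lt_of_le_of_lt (infDist_le_dist_of_mem (y := z + g) (L.add_mem hz hg)) ?_
    simpa using hz2
  refine le_antisymm (key x g hg) ?_
  have := key (x + g) (-g) (L.neg_mem hg)
  simpa using this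

theorem covering [FiniteDimensional ℝ E] [MeasurableSpace E] [BorelSpace E] (μ : Measure E) [μ.IsAddHaarMeasure] (L : Submodule ℤ E) [DiscreteTopology L]
    [IsZLattice ℝ L] {lam : ℝ} (hl : 0 < lam) (hmin : ∀ x ∈ L, x ≠ 0 → lam ≤ ‖x‖) (y : E) :
    ∃ x ∈ L, ‖y - x‖ < lam * (ZLattice.covolume L μ / μ.real (ball 0 (lam / 2))) := by
  classical
  set d := infDist y (L : Set E) with hd
  have hd0 : 0 ≤ d := infDist_nonneg
  set n := ⌊d / lam⌋₊ with hn
  have hnd : (n : ℝ) * lam ≤ d := by
    have := Nat.floor_le (div_nonneg hd0 hl.le)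
    rwa [le_div_iff₀ hl] at this
  have hch : ∀ k : Fin (n + 1), ∃ z : E, infDist z (L : Set E) = (k : ℕ) * lam := by
    intro k
    refine ex_val L y _ (by positivity) ?_
    have hk : ((k : ℕ) : ℝ) ≤ n := by exact_mod_cast Nat.lt_succ_iff.1 k.2
    exact (mul_le_mul_of_nonneg_right hk hl.le).trans hnd
  choose z hz using hch
  -- key: if `‖z j - z k - g‖ < lam` with `g ∈ L` then `j = k` and `g = 0`
  have hkey : ∀ (j k : Fin (n + 1)) (g : E), g ∈ L → ‖z j - z k - g‖ < lam → j = k ∧ g = 0 := by
    intro j k g hg h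
    have h1 : |infDist (z j) (L : Set E) - infDist (z k + g) (L : Set E)| < lam := by
      refine lt_of_le_of_lt ?_ h
      have := (lipschitz_infDist_pt (L : Set E)).dist_le_mul (z j) (z k + g)
      rw [Real.dist_eq] at this
      simpa [dist_eq_norm, sub_sub] using this
    rw [infDist_add_mem L _ _ hg, hz, hz, ← sub_mul, abs_mul, abs_of_pos hl] at h1
    have h2 : |((j : ℕ) : ℝ) - (k : ℕ)| < 1 := by
      by_contra hcon
      push Not at hcon
      nlinarith
    have h3 : j = k := by
      have h4 : |((j : ℕ) : ℤ) - (k : ℕ)| < 1 := by exact_mod_cast h2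
      have h5 : ((j : ℕ) : ℤ) - (k : ℕ) = 0 := by simpa using Int.abs_lt_one_iff.1 h4
      apply Fin.ext; omega
    refine ⟨h3, ?_⟩
    by_contra hg0
    have := hmin g hg hg0
    rw [h3] at h
    simp at h
    linarith
  set s : Set E := ⋃ k : Fin (n + 1), ball (z k) (lam / 2) with hs
  have hsm : MeasurableSet s := MeasurableSet.iUnion fun k => measurableSet_ball
  have hμs : μ.real s = (n + 1 : ℝ) * μ.real (ball 0 (lam / 2)) := by
    rw [hs, measureReal_def, measure_iUnion ?_ (fun k => measurableSet_ball)]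
    · rw [tsum_fintype]
      simp only [Measure.addHaar_ball_center]
      rw [Finset.sum_const, Finset.card_univ, Fintype.card_fin, nsmul_eq_mul, ENNReal.toReal_mul,
        measureReal_def]
      congr 1
      rw [ENNReal.toReal_natCast]
      push_cast
      ring
    · intro j k hjk
      rw [Function.onFun, Set.disjoint_left]
      intro x hx hx2
      rw [mem_ball, dist_eq_norm] at hx hx2
      refine hjk (hkey j k 0 L.zero_mem ?_).1
      have : z j - z k - 0 = (x - z k) - (x - z j) := by abel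
      rw [this]
      exact lt_of_le_of_lt (norm_sub_le _ _) (by linarith)
  set b := Module.Free.chooseBasis ℤ L
  have hfd := ZLattice.isAddFundamentalDomain b μ
  have : MeasurableVAdd L E := (inferInstance : MeasurableVAdd L.toAddSubgroup E)
  have : VAddInvariantMeasure L E μ := (inferInstance : VAddInvariantMeasure L.toAddSubgroup E μ)
  have hle : μ s ≤ μ (ZSpan.fundamentalDomain (b.ofZLatticeBasis ℝ)) := by
    refine hfd.measure_le_of_pairwise_disjoint hsm.nullMeasurableSet ?_
    intro g h hgh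
    rw [Function.onFun]
    refine (Disjoint.mono (Set.inter_subset_left) (Set.inter_subset_left) ?_).aedisjoint
    rw [Set.disjoint_left]
    rintro x ⟨a, ha, hax⟩ ⟨c, hc, hcx⟩
    rw [hs, mem_iUnion] at ha hc
    obtain ⟨j, hj⟩ := ha
    obtain ⟨k, hk⟩ := hc
    rw [mem_ball, dist_eq_norm] at hj hk
    have hac : (g : E) + a = (h : E) + c := by
      have h1 : (g : E) + a = x := hax
      have h2 : (h : E) + c = x := hcx
      rw [h1, h2]
    have := hkey j k ((h : E) - g) (L.sub_mem h.2 g.2) (by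
      have : z j - z k - ((h : E) - g) = (c - z k) - (a - z j) := by
        have : (h : E) - g = a - c := by
          rw [sub_eq_sub_iff_add_eq_add, ← hac, add_comm]
        rw [this]; abel
      rw [this]
      exact lt_of_le_of_lt (norm_sub_le _ _) (by linarith))
    exact hgh (Subtype.ext (sub_eq_zero.1 this.2).symm)
  have hcov : ZLattice.covolume L μ = μ.real (ZSpan.fundamentalDomain (b.ofZLatticeBasis ℝ)) :=
    ZLattice.covolume_eq_measure_fundamentalDomain L μ hfd
  have hfin : μ (ZSpan.fundamentalDomain (b.ofZLatticeBasis ℝ)) ≠ ⊤ :=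
    (ZSpan.fundamentalDomain_isBounded _).measure_lt_top.ne
  have hle2 : μ.real s ≤ ZLattice.covolume L μ := by
    rw [hcov]
    exact ENNReal.toReal_mono hfin hle
  have hbpos : 0 < μ.real (ball (0 : E) (lam / 2)) :=
    ENNReal.toReal_pos (measure_ball_pos μ 0 (by positivity)).ne' measure_ball_lt_top.ne
  have h1 : (n + 1 : ℝ) ≤ ZLattice.covolume L μ / μ.real (ball 0 (lam / 2)) := by
    rw [le_div_iff₀ hbpos, ← hμs]; exact hle2
  have h2 : d < lam * (ZLattice.covolume L μ / μ.real (ball 0 (lam / 2))) := by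
    have h3 : d / lam < n + 1 := Nat.lt_floor_add_one _
    have h4 : d / lam < ZLattice.covolume L μ / μ.real (ball 0 (lam / 2)) := h3.trans_le h1
    rw [div_lt_iff₀ hl] at h4
    linarith
  obtain ⟨x, hx, hx2⟩ := (infDist_lt_iff (⟨0, L.zero_mem⟩ : (L : Set E).Nonempty)).1 h2
  exact ⟨x, hx, by rwa [dist_eq_norm] at hx2⟩

private def ff (R : ℝ) (x : E) : ℝ≥0∞ := Set.indicator (closedBall (0 : E) R) (fun _ => 1) x

omit [NormedSpace ℝ E] in
private theorem tsum_eq (L : Submodule ℤ E) (R : ℝ) :
    (∑' g : L, ff R (g : E)) = ({x : E | x ∈ L ∧ ‖x‖ ≤ R}.encard : ℝ≥0∞) := by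
  rw [← ENNReal.tsum_set_one, tsum_subtype (s := {x : E | x ∈ L ∧ ‖x‖ ≤ R}) (fun _ => (1 : ℝ≥0∞)),
    show (∑' g : L, ff R (g : E)) = ∑' x : (L : Set E), ff R (x : E) from rfl,
    tsum_subtype (s := (L : Set E)) (fun x => ff R x)]
  refine tsum_congr fun x => ?_
  by_cases h1 : x ∈ L <;> by_cases h2 : ‖x‖ ≤ R <;>
    simp [ff, Set.indicator, h1, h2]

section cnt

variable [FiniteDimensional ℝ E] [MeasurableSpace E] [BorelSpace E] (μ : Measure E)
  [μ.IsAddHaarMeasure] (L : Submodule ℤ E) [DiscreteTopology L] [IsZLattice ℝ L]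

private theorem unf (R : ℝ) {F : Set E} (hF : IsAddFundamentalDomain L F μ) :
    μ (closedBall 0 R) = ∫⁻ y in F, (∑' g : L, ff R ((g : E) + y)) ∂μ := by
  have : MeasurableVAdd L E := (inferInstance : MeasurableVAdd L.toAddSubgroup E)
  have : VAddInvariantMeasure L E μ := (inferInstance : VAddInvariantMeasure L.toAddSubgroup E μ)
  have h1 : μ (closedBall 0 R) = ∫⁻ y, ff R y ∂μ := by
    unfold ff
    rw [lintegral_indicator measurableSet_closedBall]
    simp
  rw [h1, hF.lintegral_eq_tsum'', lintegral_tsum]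
  · rfl
  · intro g
    refine Measurable.aemeasurable ?_
    unfold ff
    exact (measurable_const.indicator measurableSet_closedBall).comp (measurable_const_add _)

omit [MeasurableSpace E] [BorelSpace E] [IsZLattice ℝ L] in
theorem finite_ball (T : ℝ) : {x : E | x ∈ L ∧ ‖x‖ ≤ T}.Finite := by
  have hcl : IsClosed (L : Set E) := by
    change IsClosed (L.toAddSubgroup : Set E)
    have : DiscreteTopology L.toAddSubgroup := (inferInstance : DiscreteTopology L)
    exact AddSubgroup.isClosed_of_discrete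
  have := Metric.finite_isBounded_inter_isClosed (s := (L : Set E)) (K := closedBall (0 : E) T)
    DiscreteTopology.isDiscrete isBounded_closedBall hcl
  refine this.subset ?_
  rintro x ⟨h1, h2⟩
  exact ⟨by simpa using h2, h1⟩

omit [NormedSpace ℝ E] [FiniteDimensional ℝ E] [MeasurableSpace E] [BorelSpace E] in
private theorem cmp (T R ρ : ℝ) (hR : R + ρ ≤ T) (y z : E) (hyz : ‖y - z‖ ≤ ρ) (a b : E)
    (hab : b - a = y - z) : ∀ g : E, ff R (g + a) ≤ ff T (g + b) := by
  intro g
  unfold ff
  by_cases h : g + a ∈ closedBall (0 : E) R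
  · have h2 : g + b ∈ closedBall (0 : E) T := by
      rw [mem_closedBall_zero_iff] at h ⊢
      have : g + b = (g + a) + (y - z) := by rw [← hab]; abel
      rw [this]
      exact (norm_add_le _ _).trans (by linarith)
    rw [Set.indicator_of_mem h, Set.indicator_of_mem h2]
  · rw [Set.indicator_of_notMem h]; exact zero_le

/-- the number of lattice points in the closed ball of radius `T`, given the covering radius. -/
theorem count_bounds {ρ : ℝ} (hρ : ∀ y : E, ∃ x ∈ L, ‖y - x‖ ≤ ρ) (T : ℝ) :
    μ.real (closedBall (0 : E) (T - ρ)) ≤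
        ({x : E | x ∈ L ∧ ‖x‖ ≤ T}.ncard : ℝ) * ZLattice.covolume L μ ∧
      ({x : E | x ∈ L ∧ ‖x‖ ≤ T}.ncard : ℝ) * ZLattice.covolume L μ ≤
        μ.real (closedBall (0 : E) (T + ρ)) := by
  classical
  set b := Module.Free.chooseBasis ℤ L
  have hfd := ZLattice.isAddFundamentalDomain b μ
  set F := ZSpan.fundamentalDomain (b.ofZLatticeBasis ℝ)
  have hcov : ZLattice.covolume L μ = μ.real F :=
    ZLattice.covolume_eq_measure_fundamentalDomain L μ hfd
  have hfin : μ F ≠ ⊤ := (ZSpan.fundamentalDomain_isBounded _).measure_lt_top.ne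
  have hcard : (∑' g : L, ff T (g : E)) = (({x : E | x ∈ L ∧ ‖x‖ ≤ T}.ncard : ℕ) : ℝ≥0∞) := by
    rw [tsum_eq, ← (finite_ball L T).cast_ncard_eq]
    rfl
  have htr : ∀ (S : ℝ) (x : E), x ∈ L → (∑' g : L, ff S ((g : E) + x)) = ∑' g : L, ff S (g : E) := by
    intro S x hx
    exact (Equiv.addRight (⟨x, hx⟩ : L)).tsum_eq (fun g : L => ff S (g : E))
  constructor
  · have h1 : μ (closedBall 0 (T - ρ)) ≤
        (({x : E | x ∈ L ∧ ‖x‖ ≤ T}.ncard : ℕ) : ℝ≥0∞) * μ F := by
      rw [unf μ L (T - ρ) hfd, ← setLIntegral_const]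
      refine lintegral_mono fun y => ?_
      obtain ⟨x, hx, hyx⟩ := hρ y
      rw [← hcard, ← htr T x hx]
      refine ENNReal.tsum_le_tsum fun g => ?_
      exact cmp T (T - ρ) ρ (by linarith) x y (by rwa [norm_sub_rev]) y x rfl _
    rw [hcov, measureReal_def, measureReal_def]
    have h2 := ENNReal.toReal_mono (ENNReal.mul_ne_top (ENNReal.natCast_ne_top _) hfin) h1
    rwa [ENNReal.toReal_mul, ENNReal.toReal_natCast] at h2
  · have h1 : (({x : E | x ∈ L ∧ ‖x‖ ≤ T}.ncard : ℕ) : ℝ≥0∞) * μ F ≤
        μ (closedBall 0 (T + ρ)) := by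
      rw [unf μ L (T + ρ) hfd, ← setLIntegral_const]
      refine lintegral_mono fun y => ?_
      obtain ⟨x, hx, hyx⟩ := hρ y
      rw [← hcard, ← htr T x hx]
      refine ENNReal.tsum_le_tsum fun g => ?_
      exact cmp (T + ρ) T ρ le_rfl y x hyx x y rfl _
    rw [hcov, measureReal_def, measureReal_def]
    have h2 := ENNReal.toReal_mono measure_closedBall_lt_top.ne h1
    rwa [ENNReal.toReal_mul, ENNReal.toReal_natCast] at h2

private theorem pow_sub_le {x y : ℝ} (hy : 0 ≤ y) (hxy : y ≤ x) (n : ℕ) :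
    x ^ n - y ^ n ≤ n * (x - y) * x ^ (n - 1) := by
  induction n with
  | zero => simp
  | succ n ih =>
    rcases Nat.eq_zero_or_pos n with h | h
    · subst h; simp
    · have hx : 0 ≤ x := hy.trans hxy
      have h1 : x ^ (n + 1) - y ^ (n + 1) = x * (x ^ n - y ^ n) + (x - y) * y ^ n := by ring
      have h2 : x * (x ^ n - y ^ n) ≤ x * (n * (x - y) * x ^ (n - 1)) :=
        mul_le_mul_of_nonneg_left ih hx
      have h3 : (x - y) * y ^ n ≤ (x - y) * x ^ n :=
        mul_le_mul_of_nonneg_left (pow_le_pow_left₀ hy hxy n) (by linarith)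
      have h4 : x * (n * (x - y) * x ^ (n - 1)) = n * (x - y) * x ^ n := by
        obtain ⟨m, rfl⟩ : ∃ m, n = m + 1 := ⟨n - 1, by omega⟩
        simp only [Nat.add_sub_cancel]
        ring
      rw [h1]
      push_cast
      nlinarith

/-- number of lattice points in a ball, with an error depending only on the dimension, the minimum and the covolume -/
theorem count [Nontrivial E] {lam : ℝ} (hl : 0 < lam) (hmin : ∀ x ∈ L, x ≠ 0 → lam ≤ ‖x‖) {T : ℝ}
    (hT : 0 ≤ T) :
    |({x : E | x ∈ L ∧ ‖x‖ ≤ T}.ncard : ℝ) -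
        μ.real (ball 0 1) * T ^ finrank ℝ E / ZLattice.covolume L μ| ≤
      finrank ℝ E * 2 ^ finrank ℝ E *
        ((T + 2 ^ finrank ℝ E * ZLattice.covolume L μ /
          (μ.real (ball 0 1) * lam ^ (finrank ℝ E - 1))) / lam) ^ (finrank ℝ E - 1) := by
  set n := finrank ℝ E with hn
  have hn0 : 0 < n := finrank_pos
  set c := μ.real (ball (0 : E) 1) with hc
  set V := ZLattice.covolume L μ with hV
  have hc0 : 0 < c :=
    ENNReal.toReal_pos (measure_ball_pos μ 0 one_pos).ne' measure_ball_lt_top.ne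
  have hV0 : 0 < V := ZLattice.covolume_pos L μ
  have hballs : ∀ R : ℝ, 0 ≤ R → μ.real (closedBall (0 : E) R) = c * R ^ n := by
    intro R hR
    rw [measureReal_def, Measure.addHaar_closedBall μ 0 hR, ENNReal.toReal_mul,
      ENNReal.toReal_ofReal (by positivity), mul_comm]
    rfl
  have hball2 : μ.real (ball (0 : E) (lam / 2)) = c * (lam / 2) ^ n := by
    rw [measureReal_def, Measure.addHaar_ball μ 0 (by positivity), ENNReal.toReal_mul,
      ENNReal.toReal_ofReal (by positivity), mul_comm]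
    rfl
  set ρ := 2 ^ n * V / (c * lam ^ (n - 1)) with hρd
  have hρ0 : 0 ≤ ρ := by positivity
  have hρ : ∀ y : E, ∃ x ∈ L, ‖y - x‖ ≤ ρ := by
    intro y
    obtain ⟨x, hx, hx2⟩ := covering μ L hl hmin y
    refine ⟨x, hx, hx2.le.trans (le_of_eq ?_)⟩
    rw [hball2, hρd]
    obtain ⟨m, hm⟩ : ∃ m, n = m + 1 := ⟨n - 1, by omega⟩
    rw [hm]
    simp only [Nat.add_sub_cancel]
    rw [← hV, div_pow]
    field_simp
    ring
  obtain ⟨h1, h2⟩ := count_bounds μ L hρ T
  rw [hballs _ (by linarith)] at h2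
  set N := ({x : E | x ∈ L ∧ ‖x‖ ≤ T}.ncard : ℝ) with hN
  have hN0 : 0 ≤ N := Nat.cast_nonneg _
  have hmain : |N * V - c * T ^ n| ≤ c * (n * ρ * (T + ρ) ^ (n - 1)) := by
    rw [abs_le]
    have hup := pow_sub_le hT (show T ≤ T + ρ by linarith) n
    rw [show T + ρ - T = ρ by ring] at hup
    constructor
    · rcases le_total ρ T with h | h
      · rw [hballs _ (by linarith)] at h1
        have h3 := pow_sub_le (show 0 ≤ T - ρ by linarith) (show T - ρ ≤ T by linarith) n
        rw [show T - (T - ρ) = ρ by ring] at h3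
        have h4 : T ^ (n - 1) ≤ (T + ρ) ^ (n - 1) := pow_le_pow_left₀ hT (by linarith) _
        have h5 : (n : ℝ) * ρ * T ^ (n - 1) ≤ n * ρ * (T + ρ) ^ (n - 1) :=
          mul_le_mul_of_nonneg_left h4 (by positivity)
        nlinarith
      · have h4 : T ^ n ≤ n * ρ * (T + ρ) ^ (n - 1) := by
          obtain ⟨m, hm⟩ : ∃ m, n = m + 1 := ⟨n - 1, by omega⟩
          rw [hm]
          simp only [Nat.add_sub_cancel]
          have h5 : T ^ m ≤ (T + ρ) ^ m := pow_le_pow_left₀ hT (by linarith) _
          calc T ^ (m + 1) = T * T ^ m := by ring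
            _ ≤ ρ * (T + ρ) ^ m := mul_le_mul h h5 (by positivity) hρ0
            _ ≤ ((m + 1 : ℕ) : ℝ) * ρ * (T + ρ) ^ m := by
                have : 0 ≤ ρ * (T + ρ) ^ m := by positivity
                push_cast
                nlinarith [Nat.cast_nonneg (α := ℝ) m]
        have h6 : 0 ≤ N * V := by positivity
        nlinarith
    · nlinarith
  have e1 : N - c * T ^ n / V = (N * V - c * T ^ n) / V := by field_simp
  rw [e1, abs_div, abs_of_pos hV0, div_le_iff₀ hV0]
  refine hmain.trans (le_of_eq ?_)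
  rw [div_pow]
  have h7 : c * ρ = 2 ^ n * V / lam ^ (n - 1) := by
    rw [hρd]; field_simp
  calc c * (n * ρ * (T + ρ) ^ (n - 1)) = n * (c * ρ) * (T + ρ) ^ (n - 1) := by ring
    _ = _ := by rw [h7]; field_simp

end cnt

end H8.RI
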