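import Pool.Agent.H77.UZ.Def

/-!
# RI-RZS: the sum over the ideals as a Riesz sum
-/

set_option autoImplicit false

open scoped ENNReal
open NumberField

noncomputable section

namespace H8.RI

theorem tsum_Rz (K : Type) [Field K] [NumberField K] (r : ℕ) (x : ℝ) (hx : 1 ≤ x) :
    (∑' I : nonZeroDivisors (Ideal (RingOfIntegers K)),
      if (Ideal.absNorm (I : Ideal (RingOfIntegers K)) : ℝ) ≤ x then
        ENNReal.ofReal ((Real.log (x / Ideal.absNorm (I : Ideal (RingOfIntegers K)))) ^ r) else 0)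
      = ENNReal.ofReal (H77.UZ.Rz r (H77.UZ.an K) x) := by
  classical
  set N : nonZeroDivisors (Ideal (RingOfIntegers K)) → ℕ := fun I => Ideal.absNorm (I : Ideal (RingOfIntegers K)) with hN
  set g : ℕ → ℝ≥0∞ := fun m => if (m : ℝ) ≤ x then ENNReal.ofReal ((Real.log (x / m)) ^ r) else 0 with hg
  have h1 : (∑' I : nonZeroDivisors (Ideal (RingOfIntegers K)),
      if (Ideal.absNorm (I : Ideal (RingOfIntegers K)) : ℝ) ≤ x then
        ENNReal.ofReal ((Real.log (x / Ideal.absNorm (I : Ideal (RingOfIntegers K)))) ^ r) else 0)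
      = ∑' m : ℕ, ∑' I : {I // N I = m}, g m := by
    change (∑' I : nonZeroDivisors (Ideal (RingOfIntegers K)), g (N I)) = _
    rw [← (Equiv.sigmaFiberEquiv N).tsum_eq, ENNReal.tsum_sigma']
    refine tsum_congr fun m => tsum_congr fun I => ?_
    have hI : N ((Equiv.sigmaFiberEquiv N) ⟨m, I⟩) = m := I.2
    rw [hI]
  have h2 : ∀ m : ℕ, 1 ≤ m → (∑' I : {I // N I = m}, g m) = ENNReal.ofReal (H77.UZ.an K m) * g m := by
    intro m hm
    rw [ENNReal.tsum_const]
    congr 1
    have e : {I // N I = m} ≃ {I : Ideal (RingOfIntegers K) // Ideal.absNorm I = m} :=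
      { toFun := fun I => ⟨I.1.1, I.2⟩
        invFun := fun J => ⟨⟨J.1, mem_nonZeroDivisors_of_ne_zero (by
          intro h0
          have := J.2
          rw [h0] at this
          simp at this
          omega)⟩, J.2⟩
        left_inv := fun I => rfl
        right_inv := fun J => rfl }
    have hfin : Finite {I : Ideal (RingOfIntegers K) // Ideal.absNorm I = m} :=
      (Ideal.finite_setOfPred_absNorm_eq m).to_subtype
    rw [ENat.card_congr e, ENat.card_eq_coe_natCard]
    unfold H77.UZ.an
    rw [ENNReal.ofReal_natCast]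
    rfl
  have h0 : (∑' I : {I // N I = 0}, g 0) = 0 := by
    have : IsEmpty {I // N I = 0} := by
      refine ⟨fun I => ?_⟩
      have h := I.2
      have h3 : (I.1 : Ideal (RingOfIntegers K)) ≠ ⊥ := nonZeroDivisors.ne_zero I.1.2
      exact h3 (Ideal.absNorm_eq_zero_iff.1 h)
    exact tsum_empty
  rw [h1, tsum_eq_sum (s := Finset.Icc 1 ⌊x⌋₊)]
  · rw [H77.UZ.Rz, ENNReal.ofReal_sum_of_nonneg]
    · refine Finset.sum_congr rfl fun m hm => ?_
      rw [Finset.mem_Icc] at hm
      rw [h2 m hm.1]
      have hmx : (m : ℝ) ≤ x := (Nat.le_floor_iff (by linarith)).1 hm.2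
      rw [ENNReal.ofReal_mul (by unfold H77.UZ.an; positivity)]
      simp only [hg, if_pos hmx]
    · intro m hm
      rw [Finset.mem_Icc] at hm
      have hmx : (m : ℝ) ≤ x := (Nat.le_floor_iff (by linarith)).1 hm.2
      have hm0 : (0 : ℝ) < m := by exact_mod_cast hm.1
      refine mul_nonneg (by unfold H77.UZ.an; positivity) (pow_nonneg (Real.log_nonneg ?_) _)
      rwa [one_le_div hm0]
  · intro m hm
    rcases Nat.eq_zero_or_pos m with h | h
    · rw [h]; exact h0
    · rw [h2 m h]
      have : ¬ (m : ℝ) ≤ x := by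
        intro hcon
        exact hm (Finset.mem_Icc.2 ⟨h, Nat.le_floor hcon⟩)
      simp only [hg, if_neg this, mul_zero]

end H8.RI
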